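import Mathlib
import Pool.Agent.H331K.Sup

/-!
# The maximal density of 2-dependent hard-core processes on `ℤ` is at most `(3 - √5) / 2`

`IsHC k μ` says that the probability measure `μ` on `{0,1}^ℤ` is the law of a stationary
`k`-dependent hard-core process, and `maxDensity k = p_k` is the supremum of `μ (x_0 = 1)` over
these laws.
-/

set_option autoImplicit false

open MeasureTheory Pool.Agent.H331K

namespace Pool.Agent.Results.MP_38bc51_pr.TwoDependentUpperBound

/-- `p_2 ≤ (3 - √5) / 2 = 0.3819…`. -/
theorem result : maxDensity 2 ≤ (3 - Real.sqrt 5) / 2 := by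
  have h5 : Real.sqrt 5 ^ 2 = 5 := Real.sq_sqrt (by norm_num)
  have h5' : Real.sqrt 5 < 3 := by
    rw [Real.sqrt_lt' (by norm_num)]
    norm_num
  refine maxDensity_le (by linarith) fun μ hμ => ?_
  have h1 := upper_two hμ
  have h2 := density_le_half hμ
  rw [← hμ.density_eq] at h1 h2
  set P := μ.real {x | x 0 = true} with hP
  have h5'' : 2 < Real.sqrt 5 := by
    rw [Real.lt_sqrt (by norm_num)]
    norm_num
  by_contra hlt
  push Not at hlt
  nlinarith

end Pool.Agent.Results.MP_38bc51_pr.TwoDependentUpperBound
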