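import Mathlib
import Pool.Agent.H331K.BlockD

/-!
# Two-sided bounds for the maximal density `p_k` of `k`-dependent hard-core processes on `ℤ`

`IsHC k μ` says that the probability measure `μ` on `{0,1}^ℤ` is the law of a stationary
`k`-dependent hard-core process, and `maxDensity k = p_k` is the supremum of `μ (x_0 = 1)` over
these laws.

Lower bound: give the sites independent uniform labels and let `X_i = 1` when the largest label
among the sites `i - k, …, i` is at odd distance from `i` (`k` even).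
-/

set_option autoImplicit false

open MeasureTheory Pool.Agent.H331K

namespace Pool.Agent.Results.MP_38bc51_pr.TwoSidedBounds

/-- The quadratic inequality behind the upper bounds. -/
theorem quad {k : ℕ} {μ : Measure (ℤ → Bool)} (h : IsHC k μ) (m : ℕ) (hm : k < 2 * m + 1) :
    (μ.real {x | x 0 = true}) ^ 2 + 2 * m * μ.real {x | x 0 = true} ≤ m := by
  have h1 := upper_general h m hm
  rw [← h.density_eq] at h1
  nlinarith

theorem upper_sqrt (k m : ℕ) (hm : k < 2 * m + 1) :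
    maxDensity k ≤ Real.sqrt (m * (m + 1)) - m := by
  have h0 : (m : ℝ) ≤ Real.sqrt (m * (m + 1)) := by
    apply Real.le_sqrt_of_sq_le
    nlinarith [(Nat.cast_nonneg m : (0 : ℝ) ≤ m)]
  refine maxDensity_le (by linarith) fun μ hμ => ?_
  have h1 := quad hμ m hm
  have h2 : μ.real {x | x 0 = true} + m ≤ Real.sqrt (m * (m + 1)) := by
    apply Real.le_sqrt_of_sq_le
    nlinarith
  linarith

theorem upper_inv (k m : ℕ) (hm : k < 2 * m + 1) :
    maxDensity k ≤ 1 / 2 - 1 / (4 * (2 * m + 1)) := by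
  have hm0 : (0 : ℝ) ≤ m := Nat.cast_nonneg m
  have h0 : 1 / (4 * (2 * (m : ℝ) + 1)) ≤ 1 / 4 := by
    apply one_div_le_one_div_of_le <;> linarith
  refine maxDensity_le (by linarith) fun μ hμ => ?_
  have h1 := quad hμ m hm
  set P := μ.real {x | x 0 = true} with hP
  have h2 : (1 - 2 * P) * (2 * (2 * m + 1)) ≥ 1 := by nlinarith [sq_nonneg (1 - 2 * P)]
  have h3 : 1 / (2 * (2 * (m : ℝ) + 1)) ≤ 1 - 2 * P := by
    rw [div_le_iff₀ (by positivity)]
    linarith
  have h4 : 1 / (4 * (2 * (m : ℝ) + 1)) = 1 / 2 * (1 / (2 * (2 * (m : ℝ) + 1))) := by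
    rw [← one_div_mul_one_div_rev]
    field_simp
    norm_num
  rw [h4]
  linarith

/-- **Theorem.** For every `k ≥ 1`, with `a = ⌊k / 2⌋` and `b = ⌈k / 2⌉`,
`a / (2 a + 1) ≤ p_k ≤ √(b (b + 1)) - b`; in particular `1 / (4 (k + 2)) ≤ 1/2 - p_k ≤ 1 / (2 k)`,
so that `1/2 - p_k` is of exact order `1 / k`. -/
theorem result (k : ℕ) (hk : 1 ≤ k) :
    ((k / 2 : ℕ) : ℝ) / (2 * (k / 2 : ℕ) + 1) ≤ maxDensity k ∧
    maxDensity k ≤ Real.sqrt (((k + 1) / 2 : ℕ) * (((k + 1) / 2 : ℕ) + 1)) - ((k + 1) / 2 : ℕ) ∧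
    1 / (4 * ((k : ℝ) + 2)) ≤ 1 / 2 - maxDensity k ∧
    1 / 2 - maxDensity k ≤ 1 / (2 * (k : ℝ)) := by
  have hlow : ((k / 2 : ℕ) : ℝ) / (2 * (k / 2 : ℕ) + 1) ≤ maxDensity k := by
    have h := lower_even (k / 2)
    rcases Nat.even_or_odd' k with ⟨m, hm | hm⟩
    · have e : 2 * (k / 2) = k := by omega
      rwa [e] at h
    · have e : 2 * (k / 2) + 1 = k := by omega
      have h2 := h.trans (maxDensity_succ (2 * (k / 2)))
      rwa [e] at h2
  refine ⟨hlow, upper_sqrt _ _ (by omega), ?_, ?_⟩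
  · have h2 := upper_inv k ((k + 1) / 2) (by omega)
    have hc : (2 * (((k + 1) / 2 : ℕ) : ℝ) + 1) ≤ (k : ℝ) + 2 := by
      have : 2 * ((k + 1) / 2) + 1 ≤ k + 2 := by omega
      exact_mod_cast this
    have h3 : 1 / (4 * ((k : ℝ) + 2)) ≤ 1 / (4 * (2 * (((k + 1) / 2 : ℕ) : ℝ) + 1)) :=
      one_div_le_one_div_of_le (by positivity) (by linarith)
    linarith
  · have hk' : (1 : ℝ) ≤ k := by exact_mod_cast hk
    have h3 : ((k / 2 : ℕ) : ℝ) / (2 * (k / 2 : ℕ) + 1) =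
        1 / 2 - 1 / (2 * (2 * ((k / 2 : ℕ) : ℝ) + 1)) := by
      have : (0 : ℝ) ≤ ((k / 2 : ℕ) : ℝ) := Nat.cast_nonneg _
      field_simp
      ring
    have hc : (k : ℝ) ≤ 2 * ((k / 2 : ℕ) : ℝ) + 1 := by
      have : k ≤ 2 * (k / 2) + 1 := by omega
      exact_mod_cast this
    have h4 : 1 / (2 * (2 * ((k / 2 : ℕ) : ℝ) + 1)) ≤ 1 / (2 * (k : ℝ)) :=
      one_div_le_one_div_of_le (by linarith) (by linarith)
    linarith

end Pool.Agent.Results.MP_38bc51_pr.TwoSidedBounds
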